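import Pool.Agent.Helper61.EP.StC
import Pool.Agent.Helper90.RL.M_PCT

/-!
# Project EP, module CCT: one class (after `Pool.Agent.Helper90.RL.M_PCT`)
-/

set_option autoImplicit false

open MeasureTheory Set Filter Topology
open scoped ENNReal RealInnerProductSpace

namespace Pool.Agent.Helper51.EP

open Pool.Agent.Helper61.EP Pool.Agent.Helper20.RG Pool.Agent.Helper20.RL
open Pool.Agent.Helper68.LM (Pl BB Bd Av HL ft fm DQ)
open Pool.Agent.Helper90.RL (pct_lad pct_lad0 pct_sum pct_exp pct_mul_le)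

/-- module CCT -/
theorem hCCT (hLLM : Pool.Agent.Helper20.RL.StLLM) (hPCI : Pool.Agent.Helper20.RL.StPCI)
    (hLPA : Pool.Agent.Helper20.RL.StLPA) (hPPB : Pool.Agent.Helper20.RL.StPPB)
    (hLXM : Pool.Agent.Helper20.RL.StLXM) (hPXR : Pool.Agent.Helper20.RL.StPXR)
    (hCNA : StCNA) (hCNB : StCNB) (hCNC : StCNC) (hCND : StCND) : StCCT := by
  intro A p s γ Cf ε e hA hEx hCf hε he
  obtain ⟨hs1, hsp, hp2, hγ0, hγp, -⟩ := id hEx
  obtain ⟨κ, hκ, hPCIk⟩ := hPCI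
  obtain ⟨C₄, hC₄, hXR⟩ := hPXR
  obtain ⟨uC, δC, CC, εC, hδC, hCC, hεC, hNC⟩ := hCNC A p s γ κ Cf ε e hA hEx hκ hCf hε he
  obtain ⟨δD, CD, εD, hδD, hCD, hεD, hND⟩ := hCND A p s γ κ C₄ Cf hA hEx hκ hC₄ hCf
  obtain ⟨δ, hδ0, hδ1, hδ2, hδ3, hδ4⟩ : ∃ δ : ℝ, 0 < δ ∧ δ ≤ δC ∧ δ ≤ δD ∧ 1 + δ < s ∧ γ + 1 + δ < p := by
    refine ⟨min (min δC δD) (min ((s - 1) / 2) ((p - 1 - γ) / 2)), ?_, ?_, ?_, ?_, ?_⟩
    · exact lt_min (lt_min hδC hδD) (lt_min (by linarith) (by linarith))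
    · exact (min_le_left _ _).trans (min_le_left _ _)
    · exact (min_le_left _ _).trans (min_le_right _ _)
    · have : min (min δC δD) (min ((s - 1) / 2) ((p - 1 - γ) / 2)) ≤ (s - 1) / 2 :=
        (min_le_right _ _).trans (min_le_left _ _)
      linarith
    · have : min (min δC δD) (min ((s - 1) / 2) ((p - 1 - γ) / 2)) ≤ (p - 1 - γ) / 2 :=
        (min_le_right _ _).trans (min_le_right _ _)
      linarith
  obtain ⟨CA, εA, hCA, hεA, hNA⟩ := hCNA p γ δ hδ4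
  obtain ⟨uB, hNB⟩ := hCNB s δ hδ3 (hsp.trans hp2) hδ0.le
  obtain ⟨u₁, hu₁⟩ := pow_unbounded_of_one_lt Cf (show (1 : ℝ) < 2 by norm_num)
  refine ⟨max (max uB uC) u₁, δ, CA + CC + CD, min εA (min εC εD), hδ0, by positivity,
    lt_min hεA (lt_min hεC hεD), ?_⟩
  intro u K τ sl c m F η m₁ hu hu2 hSlo hcm hK halt hF hCtl hNm hτ
  have huB : uB ≤ u := ((le_max_left _ _).trans (le_max_left _ _)).trans hu
  have huC : uC ≤ u := ((le_max_right _ _).trans (le_max_left _ _)).trans hu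
  have huu₁ : u₁ ≤ u := (le_max_right _ _).trans hu
  have hu1 : 1 ≤ u := by omega
  have hCfu : Cf ≤ (2 : ℝ) ^ u :=
    hu₁.le.trans (pow_le_pow_right₀ (by norm_num) huu₁)
  have hη0 : 0 < η := hNm.1
  have hη1 : η ≤ 1 := hNm.2.1
  have hm₁0 : 0 < m₁ := by
    have h1 : 0 < m₁ * η := lt_of_lt_of_le (by positivity) hNm.2.2.1
    exact (pos_iff_pos_of_mul_pos h1).2 hη0
  have hD0 : 0 < D8 s u := by unfold D8; positivity
  have h2u : (0 : ℝ) < (2 : ℝ) ^ u := by positivity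
  have hK3 : (K : ℝ) ≤ (2 : ℝ) ^ (3 * u) := by
    have h1 : (2 : ℝ) ^ (p * (u : ℝ)) ≤ (2 : ℝ) ^ (2 * (u : ℝ)) := by
      apply Real.rpow_le_rpow_of_exponent_le (by norm_num)
      have : (0 : ℝ) ≤ u := Nat.cast_nonneg u
      nlinarith
    have h2 : (2 : ℝ) ^ (2 * (u : ℝ)) = (2 : ℝ) ^ (2 * u) := by
      rw [← Real.rpow_natCast]
      push_cast
      rfl
    rw [h2] at h1
    calc (K : ℝ) ≤ Cf * (2 : ℝ) ^ (p * (u : ℝ)) := hK
      _ ≤ (2 : ℝ) ^ u * (2 : ℝ) ^ (2 * u) := mul_le_mul hCfu h1 (by positivity) h2u.le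
      _ = (2 : ℝ) ^ (3 * u) := by rw [← pow_add]; congr 1; ring
  have hK4 : K ≤ 2 ^ (4 * u) := by
    have h1 : (K : ℝ) ≤ (2 : ℝ) ^ (4 * u) :=
      hK3.trans (pow_le_pow_right₀ (by norm_num) (by omega))
    exact_mod_cast h1
  -- union bound
  have hUsub : ∀ j : ℕ, ∀ k < K, volume (F ∩ UU F (sl j) (m j) u η τ (k : ℤ)) ≤
      volume (F ∩ ⋃ k ∈ Ico (0 : ℤ) K, UU F (sl j) (m j) u η τ k) := by
    intro j k hk
    apply measure_mono
    apply inter_subset_inter_right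
    intro y hy
    rw [mem_iUnion₂]
    exact ⟨(k : ℤ), ⟨by positivity, by exact_mod_cast hk⟩, hy⟩
  have hB1 : ∀ j < 2 ^ u, ∑ k ∈ Finset.range K, volume (F ∩ UU F (sl j) (m j) u η τ (k : ℤ)) ≤
      ENNReal.ofReal (K : ℝ) * volume (F ∩ ⋃ k ∈ Ico (0 : ℤ) K, UU F (sl j) (m j) u η τ k) := by
    intro j _
    refine (Finset.sum_le_sum fun k hk => hUsub j k (Finset.mem_range.mp hk)).trans ?_
    rw [Finset.sum_const, Finset.card_range, nsmul_eq_mul, ENNReal.ofReal_natCast]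
  have hLX : ∀ k < K, volume {x | m₁ ≤ ({j : ℕ | j < 2 ^ u ∧
        Hit (sl j) (c j) (m j) u k (CU F (sl j) (m j) u η τ k) x}.ncard : ℝ)} ≤
      ENNReal.ofReal (70 / (m₁ * η)) * ∑ j ∈ Finset.range (2 ^ u),
        volume (F ∩ UU F (sl j) (m j) u η τ (k : ℤ)) := by
    intro k _
    exact hLXM u τ k sl c m F η m₁ hu1 hτ hF hη0 hm₁0
  have ha0 : 0 ≤ 70 / (m₁ * η) := by positivity
  -- case of small `b`
  have hsmall : ∀ b : ℕ, (b : ℝ) ≤ γ * u → τ ≤ Mt u → lad u τ < lad u (τ + 1) →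
      lad u (τ + 1) - lad u τ ≤ 1025 * (u : ℤ) ^ 2 * 2 ^ b →
      ∑ k ∈ Finset.range K, volume {x | m₁ ≤ ({j : ℕ | j < 2 ^ u ∧
        Hit (sl j) (c j) (m j) u k (CU F (sl j) (m j) u η τ k) x}.ncard : ℝ)} ≤
        ENNReal.ofReal ((CA + CC + CD) * (2 : ℝ) ^ ((p - min εA (min εC εD)) * u)) * volume F := by
    intro b hb hτM hl1 hl2
    have h1 := pct_sum (2 ^ u) K _ (fun k j => volume (F ∩ UU F (sl j) (m j) u η τ (k : ℤ)))
      (fun j => volume (F ∩ ⋃ k ∈ Ico (0 : ℤ) K, UU F (sl j) (m j) u η τ k))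
      (70 / (m₁ * η)) (10 ^ 6 * (u : ℝ) ^ 5 * 2 ^ b) ((2 : ℝ) ^ u) (volume F) hLX
      (fun j _ => hLPA F (sl j) (m j) u η τ b K hF hu1 hη0 hτM hK4 hl1 hl2)
      (by
        refine (Finset.sum_le_sum fun j _ => measure_mono inter_subset_left).trans ?_
        rw [Finset.sum_const, Finset.card_range, nsmul_eq_mul]
        apply le_of_eq
        congr 1
        rw [ENNReal.ofReal_pow (by norm_num)]
        push_cast
        simp)
      ha0 (by positivity)
    refine pct_mul_le ?_ h1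
    refine (hNA u b η m₁ hu1 hNm hb).trans ?_
    exact pct_exp _ _ _ _ _ _ (by linarith) (min_le_left _ _) hCA.le
  rcases Nat.eq_zero_or_pos τ with hτ0 | hτ0
  · subst hτ0
    obtain ⟨g1, g2⟩ := pct_lad0 hLLM u hu1
    exact hsmall 0 (by push_cast; positivity) (Nat.zero_le _) g1 g2
  · -- τ = 16 u b + l + 1
    obtain ⟨b, l, hl, hτe⟩ : ∃ b l : ℕ, l < 16 * u ∧ τ = 16 * u * b + l + 1 := by
      refine ⟨(τ - 1) / (16 * u), (τ - 1) % (16 * u), Nat.mod_lt _ (by omega), ?_⟩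
      have := Nat.div_add_mod (τ - 1) (16 * u)
      omega
    obtain ⟨g1, g2⟩ := pct_lad hLLM u b l hu1 hl
    rw [← hτe] at g1 g2
    have hblM : 16 * u * b + l ≤ Mt u := by omega
    by_cases hbγ : (b : ℝ) ≤ γ * u
    · have hbu : b ≤ u := by
        have h1 : (b : ℝ) ≤ u := by
          have : (0 : ℝ) ≤ u := Nat.cast_nonneg u
          nlinarith
        exact_mod_cast h1
      have hτM : τ ≤ Mt u := by
        unfold Mt
        rw [hτe]
        have h1 : 16 * u * b ≤ 16 * u * u := Nat.mul_le_mul_left _ hbu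
        have h2 : 16 * u * (3 * u + 1) = 16 * u * u + 16 * u * (2 * u) + 16 * u := by ring
        rw [h2]
        omega
      exact hsmall b hbγ hτM g1 g2
    · have hbγ' : γ * u < b := not_le.mp hbγ
      have hb1 : 1 ≤ b := by
        have h1 : (0 : ℝ) < b := lt_of_le_of_lt (by positivity) hbγ'
        exact_mod_cast h1
      obtain ⟨n1, n2, n3⟩ := hNB u η m₁ huB hu1 hNm
      have hB2 : ∀ j < 2 ^ u, ∑ k ∈ Finset.range K,
          volume (F ∩ UU F (sl j) (m j) u η τ (k : ℤ)) ≤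
          ENNReal.ofReal (10 ^ 6 * (u : ℝ) ^ 5 * 2 ^ b) *
            volume (F ∩ ⋃ k ∈ Ico (0 : ℤ) K, UU F (sl j) (m j) u η τ k) := by
        intro j hj
        by_cases hτM : τ ≤ Mt u
        · exact hLPA F (sl j) (m j) u η τ b K hF hu1 hη0 hτM hK4 g1 g2
        · refine (hB1 j hj).trans ?_
          have h1 : (K : ℝ) ≤ 10 ^ 6 * (u : ℝ) ^ 5 * 2 ^ b := by
            have h2 : 3 * u ≤ b := by
              by_contra hcon
              have h3 : b + 1 ≤ 3 * u := by omega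
              apply hτM
              rw [hτe]
              unfold Mt
              have h4 : 16 * u * (b + 1) ≤ 16 * u * (3 * u) := Nat.mul_le_mul_left _ h3
              have h5 : 16 * u * (b + 1) = 16 * u * b + 16 * u := by ring
              have h6 : 16 * u * (3 * u + 1) = 16 * u * (3 * u) + 16 * u := by ring
              rw [h6]
              omega
            have h3 : (2 : ℝ) ^ (3 * u) ≤ (2 : ℝ) ^ b := pow_le_pow_right₀ (by norm_num) h2
            have h4 : (1 : ℝ) ≤ 10 ^ 6 * (u : ℝ) ^ 5 := by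
              have h5 : (1 : ℝ) ≤ (u : ℝ) := by exact_mod_cast hu1
              have h6 : (1 : ℝ) ≤ (u : ℝ) ^ 5 := one_le_pow₀ h5
              linarith
            have h5 : (0 : ℝ) < (2 : ℝ) ^ b := by positivity
            nlinarith
          gcongr
      have hB3 : ∀ j < 2 ^ u, ∑ k ∈ Finset.range K,
          volume (F ∩ UU F (sl j) (m j) u η τ (k : ℤ)) ≤
          ENNReal.ofReal (min (10 ^ 6 * (u : ℝ) ^ 5 * 2 ^ b) (K : ℝ)) *
            volume (F ∩ ⋃ k ∈ Ico (0 : ℤ) K, UU F (sl j) (m j) u η τ k) := by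
        intro j hj
        rcases min_choice (10 ^ 6 * (u : ℝ) ^ 5 * 2 ^ b) (K : ℝ) with h | h
        · rw [h]; exact hB2 j hj
        · rw [h]; exact hB1 j hj
      have hW0 : (0 : ℝ) ≤ min (10 ^ 6 * (u : ℝ) ^ 5 * 2 ^ b) (K : ℝ) :=
        le_min (by positivity) (by positivity)
      have hPB := hPPB κ hκ hPCIk u b l K A p sl m F (D8 s u) η hu2 hb1 hl hblM hA hSlo
        (fun j hj => (hcm j hj).2) hF hCtl n2 n1 hη1
      rw [← hτe] at hPB
      by_cases hfew : m₁ < 1000 ∨ m₁ < 200 * ns u b A p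
      · have h1 := pct_sum (2 ^ u) K _ (fun k j => volume (F ∩ UU F (sl j) (m j) u η τ (k : ℤ)))
          (fun j => volume (F ∩ ⋃ k ∈ Ico (0 : ℤ) K, UU F (sl j) (m j) u η τ k))
          (70 / (m₁ * η)) _ _ (volume F) hLX hB3 hPB ha0 hW0
        refine pct_mul_le ?_ h1
        refine (hNC δ u b K η m₁ hδ0 hδ1 huC hu1 hNm hbγ' hK halt hfew).trans ?_
        exact pct_exp _ _ _ _ _ _ (by linarith) ((min_le_right _ _).trans (min_le_left _ _)) hCC.le
      · rw [not_or, not_lt, not_lt] at hfew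
        have hXR' : ∀ k < K, volume {x | m₁ ≤ ({j : ℕ | j < 2 ^ u ∧
            Hit (sl j) (c j) (m j) u k (CU F (sl j) (m j) u η τ k) x}.ncard : ℝ)} ≤
            ENNReal.ofReal (((1 / 2) ^ (16 * u) / (10752 * 2 ^ u * D8 s u / η) +
              u * C₄ * ns u b A p * (10752 * 2 ^ u * D8 s u / η) / m₁ ^ 3) * (42 / η)) *
            ∑ j ∈ Finset.range (2 ^ u), volume (F ∩ UU F (sl j) (m j) u η τ (k : ℤ)) := by
          intro k _
          have h2 := hXR u b l k A p sl c m F (D8 s u) η m₁ hu2 hb1 hl hblM hA hSlo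
            (fun j hj => ⟨(hcm j hj).1.trans hCfu, (hcm j hj).2⟩) hF hCtl hD0 hη0 hfew.1 hfew.2 n3
          rw [← hτe] at h2
          exact h2
        have hns : 0 ≤ ns u b A p := by
          unfold ns
          positivity
        have hC₄0 : 0 ≤ C₄ := by linarith
        have h1 := pct_sum (2 ^ u) K _ (fun k j => volume (F ∩ UU F (sl j) (m j) u η τ (k : ℤ)))
          (fun j => volume (F ∩ ⋃ k ∈ Ico (0 : ℤ) K, UU F (sl j) (m j) u η τ k))
          _ _ _ (volume F) hXR' hB3 hPB (by positivity) hW0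
        refine pct_mul_le ?_ h1
        refine (hND δ u b K η m₁ hδ0 hδ2 hu1 hNm hbγ' hK hfew.1 hfew.2).trans ?_
        exact pct_exp _ _ _ _ _ _ (by linarith) ((min_le_right _ _).trans (min_le_right _ _)) hCD.le

end Pool.Agent.Helper51.EP
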