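import Pool.Agent.Helper68.EP.St2

/-!
# Project EP, module ECR: the crossing lemma
-/

set_option autoImplicit false

open MeasureTheory Set Filter Topology
open scoped ENNReal RealInnerProductSpace

namespace Pool.Agent.Helper51.EP

open Pool.Agent.Helper68.EP Pool.Agent.Helper20.RG
open Pool.Agent.Helper20.RL (RQ Rich BM Fml)
open Pool.Agent.Helper68.LM (Pl DQ)

theorem m0 : Measurable (fun z : Pl => z 0) := by fun_prop
theorem mpr (s : ℝ) : Measurable (fun z : Pl => pr s z) := by unfold pr; fun_prop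

/-- the part of the strip -/
def Pn (O : Set ℝ) (s₁ s₂ : ℝ) (a n : ℤ) (c h : ℝ) : Set Pl :=
  {x | ⌊x 0 / (2 : ℝ) ^ a⌋ = n ∧ |pr s₂ x - c| ≤ h ∧ pr s₁ x ∈ O}

theorem Pn_meas {O : Set ℝ} (hO : MeasurableSet O) (s₁ s₂ : ℝ) (a n : ℤ) (c h : ℝ) :
    MeasurableSet (Pn O s₁ s₂ a n c h) := by
  have e : Pn O s₁ s₂ a n c h = (fun x : Pl => ⌊x 0 / (2 : ℝ) ^ a⌋) ⁻¹' {n} ∩
      ((fun x : Pl => |pr s₂ x - c|) ⁻¹' Iic h ∩ (fun x : Pl => pr s₁ x) ⁻¹' O) := by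
    ext x; rfl
  rw [e]
  refine ((Int.measurable_floor.comp (m0.div_const _)) (measurableSet_singleton n)).inter
    (MeasurableSet.inter ?_ (mpr s₁ hO))
  exact (((mpr s₂).sub_const c).abs) measurableSet_Iic

theorem strip_eq (a n : ℤ) : {t : ℝ | ⌊t / (2 : ℝ) ^ a⌋ = n} = Ico ((n : ℝ) * (2 : ℝ) ^ a) ((n + 1) * (2 : ℝ) ^ a) := by
  ext t
  have h2 : (0 : ℝ) < (2 : ℝ) ^ a := by positivity
  simp only [mem_ofPred_eq, mem_Ico, Int.floor_eq_iff]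
  rw [le_div_iff₀ h2, div_lt_iff₀ h2]

theorem strip_vol (a n : ℤ) : volume {t : ℝ | ⌊t / (2 : ℝ) ^ a⌋ = n} = ENNReal.ofReal ((2 : ℝ) ^ a) := by
  rw [strip_eq, Real.volume_Ico]
  congr 1
  ring

theorem strip_meas (a n : ℤ) : MeasurableSet {t : ℝ | ⌊t / (2 : ℝ) ^ a⌋ = n} := by
  rw [strip_eq]
  exact measurableSet_Ico

theorem caseA (hPT : Pool.Agent.Helper20.RG.StPT) {O : Set ℝ} (hO : MeasurableSet O) (s₁ s₂ : ℝ) (a n : ℤ) (c h : ℝ)
    (K : ℝ≥0∞) (hK : ∀ c' : ℝ, volume {ρ : ℝ | |ρ - c'| ≤ h ∧ ρ ∈ O} ≤ K) :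
    volume (Pn O s₁ s₂ a n c h) ≤ K * ENNReal.ofReal ((2 : ℝ) ^ a) := by
  obtain ⟨p1, _, _, _, p5, p6, _, _⟩ := hPT
  have hm := Pn_meas hO s₁ s₂ a n c h
  rw [← lintegral_indicator_one hm, p6 _ (measurable_one.indicator hm)]
  calc ∫⁻ t : ℝ, ∫⁻ v : ℝ, (Pn O s₁ s₂ a n c h).indicator 1 (pt t v)
      ≤ ∫⁻ t : ℝ, {t : ℝ | ⌊t / (2 : ℝ) ^ a⌋ = n}.indicator (fun _ => K) t := by
        refine lintegral_mono fun t => ?_
        by_cases ht : ⌊t / (2 : ℝ) ^ a⌋ = n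
        · have ht' : t ∈ {t : ℝ | ⌊t / (2 : ℝ) ^ a⌋ = n} := ht
          rw [indicator_of_mem ht']
          have e1 : ∀ v : ℝ, (Pn O s₁ s₂ a n c h).indicator (1 : Pl → ℝ≥0∞) (pt t v) =
              ((fun v : ℝ => v + (-(s₁ * t))) ⁻¹' {ρ : ℝ | |ρ - (c + (s₂ - s₁) * t)| ≤ h ∧ ρ ∈ O}).indicator
                (1 : ℝ → ℝ≥0∞) v := by
            intro v
            have e2 : pt t v ∈ Pn O s₁ s₂ a n c h ↔
                v ∈ (fun v : ℝ => v + (-(s₁ * t))) ⁻¹' {ρ : ℝ | |ρ - (c + (s₂ - s₁) * t)| ≤ h ∧ ρ ∈ O} := by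
              simp only [Pn, mem_ofPred_eq, mem_preimage, pr, (p1 t v).1, (p1 t v).2]
              have e3 : v + -(s₁ * t) - (c + (s₂ - s₁) * t) = v - s₂ * t - c := by ring
              have e4 : v + -(s₁ * t) = v - s₁ * t := by ring
              rw [e3, e4]
              tauto
            by_cases hv : pt t v ∈ Pn O s₁ s₂ a n c h
            · rw [indicator_of_mem hv, indicator_of_mem (e2.1 hv)]; rfl
            · rw [indicator_of_notMem hv, indicator_of_notMem (fun hh => hv (e2.2 hh))]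
          have hset : MeasurableSet {ρ : ℝ | |ρ - (c + (s₂ - s₁) * t)| ≤ h ∧ ρ ∈ O} := by
            refine MeasurableSet.inter ?_ hO
            exact (((measurable_id).sub_const (c + (s₂ - s₁) * t)).abs) measurableSet_Iic
          simp_rw [e1]
          have hpre : MeasurableSet ((fun v : ℝ => v + (-(s₁ * t))) ⁻¹'
              {ρ : ℝ | |ρ - (c + (s₂ - s₁) * t)| ≤ h ∧ ρ ∈ O}) :=
            (show Measurable (fun v : ℝ => v + (-(s₁ * t))) from measurable_id.add_const _) hset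
          rw [lintegral_indicator_one hpre, measure_preimage_add_right]
          exact hK _
        · have ht' : t ∉ {t : ℝ | ⌊t / (2 : ℝ) ^ a⌋ = n} := ht
          rw [indicator_of_notMem ht']
          have e1 : ∀ v : ℝ, (Pn O s₁ s₂ a n c h).indicator (1 : Pl → ℝ≥0∞) (pt t v) = 0 := by
            intro v
            refine indicator_of_notMem ?_ _
            intro hh
            apply ht
            have := hh.1
            rwa [(p1 t v).1] at this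
          simp [e1]
    _ = K * ENNReal.ofReal ((2 : ℝ) ^ a) := by
        rw [lintegral_indicator_const (strip_meas a n), strip_vol]

theorem caseB (hPAR : Pool.Agent.Helper20.RG.StPAR) {O : Set ℝ} (hO : MeasurableSet O) (s₁ s₂ : ℝ) (a n : ℤ) (c h κ : ℝ)
    (hs : s₁ ≠ s₂) (hh : 0 < h) (hκ : 0 ≤ κ) (hha : h ≤ |s₁ - s₂| * (2 : ℝ) ^ a)
    (hK : ∀ c' : ℝ, volume {ρ : ℝ | |ρ - c'| ≤ 2 * |s₁ - s₂| * (2 : ℝ) ^ a ∧ ρ ∈ O} ≤
      ENNReal.ofReal (κ * (2 * |s₁ - s₂| * (2 : ℝ) ^ a))) :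
    volume (Pn O s₁ s₂ a n c h) ≤ ENNReal.ofReal (4 * κ * ((2 : ℝ) ^ a * h)) := by
  set α := |s₁ - s₂| with hα
  have hα0 : 0 < α := abs_pos.2 (sub_ne_zero.2 hs)
  have h2 : (0 : ℝ) < (2 : ℝ) ^ a := by positivity
  set c' : ℝ := c + (s₂ - s₁) * (n * (2 : ℝ) ^ a) with hc'
  have hsetA : MeasurableSet {ρ : ℝ | |ρ - c'| ≤ 2 * α * (2 : ℝ) ^ a ∧ ρ ∈ O} := by
    refine MeasurableSet.inter ?_ hO
    exact (((measurable_id).sub_const c').abs) measurableSet_Iic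
  have hsetB : {σ : ℝ | |σ - c| ≤ h} = Icc (c - h) (c + h) := by
    ext σ
    simp only [mem_ofPred_eq, mem_Icc, abs_le]
    constructor
    · rintro ⟨h1, h2⟩; constructor <;> linarith
    · rintro ⟨h1, h2⟩; constructor <;> linarith
  have hsub : Pn O s₁ s₂ a n c h ⊆
      {y : Pl | pr s₁ y ∈ {ρ : ℝ | |ρ - c'| ≤ 2 * α * (2 : ℝ) ^ a ∧ ρ ∈ O} ∧ pr s₂ y ∈ {σ : ℝ | |σ - c| ≤ h}} := by
    rintro x ⟨h3, h4, h5⟩
    refine ⟨⟨?_, h5⟩, h4⟩
    have h6 : x 0 ∈ Ico ((n : ℝ) * (2 : ℝ) ^ a) ((n + 1) * (2 : ℝ) ^ a) := by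
      rw [← strip_eq]; exact h3
    have h7 : |x 0 - n * (2 : ℝ) ^ a| ≤ (2 : ℝ) ^ a := by
      rw [abs_le]
      constructor
      · linarith [h6.1]
      · have := h6.2
        nlinarith
    have h8 : pr s₁ x - c' = (pr s₂ x - c) + (s₂ - s₁) * (x 0 - n * (2 : ℝ) ^ a) := by
      simp only [pr, hc']; ring
    rw [h8]
    calc |(pr s₂ x - c) + (s₂ - s₁) * (x 0 - n * (2 : ℝ) ^ a)|
        ≤ |pr s₂ x - c| + |(s₂ - s₁) * (x 0 - n * (2 : ℝ) ^ a)| := abs_add_le _ _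
      _ = |pr s₂ x - c| + α * |x 0 - n * (2 : ℝ) ^ a| := by rw [abs_mul, abs_sub_comm s₂ s₁]
      _ ≤ h + α * (2 : ℝ) ^ a := add_le_add h4 (mul_le_mul_of_nonneg_left h7 hα0.le)
      _ ≤ 2 * α * (2 : ℝ) ^ a := by linarith
  calc volume (Pn O s₁ s₂ a n c h) ≤ _ := measure_mono hsub
    _ = volume {ρ : ℝ | |ρ - c'| ≤ 2 * α * (2 : ℝ) ^ a ∧ ρ ∈ O} * volume {σ : ℝ | |σ - c| ≤ h} *
        ENNReal.ofReal (1 / |s₁ - s₂|) := by
      rw [hPAR s₁ s₂ _ _ hs hsetA (by rw [hsetB]; exact measurableSet_Icc)]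
    _ ≤ ENNReal.ofReal (κ * (2 * α * (2 : ℝ) ^ a)) * ENNReal.ofReal (2 * h) * ENNReal.ofReal (1 / α) := by
      gcongr
      · exact hK c'
      · rw [hsetB, Real.volume_Icc]
        apply ENNReal.ofReal_le_ofReal
        linarith
    _ = ENNReal.ofReal (4 * κ * ((2 : ℝ) ^ a * h)) := by
      rw [← ENNReal.ofReal_mul (by positivity), ← ENNReal.ofReal_mul (by positivity)]
      congr 1
      field_simp
      ring

theorem hECR (hPT : Pool.Agent.Helper20.RG.StPT) (hPAR : Pool.Agent.Helper20.RG.StPAR) (hECO : StECO) : StECR := by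
  intro F s₁ s₂ a b D ϑ g c h hs1 hs2 hF hba hD hϑ hden hh halt
  have h2 : (0 : ℝ) < (2 : ℝ) ^ a := by positivity
  have hb2 : (0 : ℝ) < (2 : ℝ) ^ b := by positivity
  have hDϑ : 0 < D / ϑ := by positivity
  -- one strip
  have one : ∀ n : ℤ, volume (Pn (Os F s₁ a b ϑ n) s₁ s₂ a n c h) ≤
      ENNReal.ofReal (364 * D / ϑ * ((2 : ℝ) ^ a * h)) := by
    intro n
    have hO : MeasurableSet (Os F s₁ a b ϑ n) :=
      (hECO F s₁ a b n D ϑ 0 ((2 : ℝ) ^ b) hs1 hF hba hD hϑ hden le_rfl).1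
    by_cases hbh : (2 : ℝ) ^ b ≤ h
    · have := caseA hPT hO s₁ s₂ a n c h (ENNReal.ofReal (91 * D / ϑ * h))
        (fun c' => (hECO F s₁ a b n D ϑ c' h hs1 hF hba hD hϑ hden hbh).2)
      refine this.trans ?_
      rw [← ENNReal.ofReal_mul (by positivity)]
      apply ENNReal.ofReal_le_ofReal
      have e1 : 91 * D / ϑ * h * (2 : ℝ) ^ a = 91 * (D / ϑ * ((2 : ℝ) ^ a * h)) := by ring
      have e2 : 364 * D / ϑ * ((2 : ℝ) ^ a * h) = 364 * (D / ϑ * ((2 : ℝ) ^ a * h)) := by ring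
      rw [e1, e2]
      have : 0 < D / ϑ * ((2 : ℝ) ^ a * h) := by positivity
      linarith
    · have hα : (2 : ℝ) ^ b ≤ |s₁ - s₂| * (2 : ℝ) ^ a := by
        rcases halt with h3 | h3
        · exact absurd h3 hbh
        · exact h3
      have hne : s₁ ≠ s₂ := by
        intro he
        rw [he, sub_self, abs_zero, zero_mul] at hα
        linarith
      have hα0 : 0 < |s₁ - s₂| := abs_pos.2 (sub_ne_zero.2 hne)
      have hbh' : h < (2 : ℝ) ^ b := not_le.1 hbh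
      have hr : (2 : ℝ) ^ b ≤ 2 * |s₁ - s₂| * (2 : ℝ) ^ a := by
        have : 0 < |s₁ - s₂| * (2 : ℝ) ^ a := by positivity
        linarith
      have := caseB hPAR hO s₁ s₂ a n c h (91 * D / ϑ) hne hh (by positivity) (hbh'.le.trans hα)
        (fun c' => (hECO F s₁ a b n D ϑ c' _ hs1 hF hba hD hϑ hden hr).2)
      refine this.trans (le_of_eq ?_)
      congr 1
      ring
  set N : ℤ := ⌊g / (2 : ℝ) ^ a⌋ with hN
  have hsub : Rs F s₁ a b ϑ ∩ {x : Pl | g ≤ x 0 ∧ x 0 ≤ g + (2 : ℝ) ^ a ∧ |pr s₂ x - c| ≤ h} ⊆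
      Pn (Os F s₁ a b ϑ N) s₁ s₂ a N c h ∪ Pn (Os F s₁ a b ϑ (N + 1)) s₁ s₂ a (N + 1) c h := by
    rintro x ⟨hx, hx1, hx2, hx3⟩
    obtain ⟨y, w, hw, hr, hxy, hd⟩ := hx
    have k1 : g / (2 : ℝ) ^ a ≤ x 0 / (2 : ℝ) ^ a := by gcongr
    have k2 : x 0 / (2 : ℝ) ^ a ≤ g / (2 : ℝ) ^ a + 1 := by
      have : g / (2 : ℝ) ^ a + 1 = (g + (2 : ℝ) ^ a) / (2 : ℝ) ^ a := by field_simp
      rw [this]; gcongr
    have k3 : N ≤ ⌊x 0 / (2 : ℝ) ^ a⌋ := Int.floor_le_floor k1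
    have k4 : ⌊x 0 / (2 : ℝ) ^ a⌋ ≤ N + 1 := by
      have := Int.floor_le_floor k2
      rwa [Int.floor_add_one] at this
    have k5 : ⌊x 0 / (2 : ℝ) ^ a⌋ = N ∨ ⌊x 0 / (2 : ℝ) ^ a⌋ = N + 1 := by omega
    rcases k5 with k5 | k5
    · left
      exact ⟨k5, hx3, y, w, hw, hr, by rw [← hxy, k5], hd⟩
    · right
      exact ⟨k5, hx3, y, w, hw, hr, by rw [← hxy, k5], hd⟩
  refine (measure_mono hsub).trans ((measure_union_le _ _).trans ?_)
  refine (add_le_add (one N) (one (N + 1))).trans ?_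
  rw [← ENNReal.ofReal_add (by positivity) (by positivity)]
  apply ENNReal.ofReal_le_ofReal
  have e1 : 364 * D / ϑ * ((2 : ℝ) ^ a * h) = 364 * (D / ϑ * ((2 : ℝ) ^ a * h)) := by ring
  have e2 : 1100 * D / ϑ * ((2 : ℝ) ^ a * h) = 1100 * (D / ϑ * ((2 : ℝ) ^ a * h)) := by ring
  rw [e1, e2]
  have : 0 < D / ϑ * ((2 : ℝ) ^ a * h) := by positivity
  linarith

end Pool.Agent.Helper51.EP
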